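import Pool.Agent.helper23.TH.Spec

set_option autoImplicit false

namespace Pool.Agent.helper23.TH

theorem SZ_finite (ι : Type) [Fintype ι] (j : ℕ) :
    {P : MvPolynomial ι (ZMod 3) | P.totalDegree ≤ j}.Finite := by
  have : Fact (Nat.Prime 3) := ⟨Nat.prime_three⟩
  have : Finite (MvPolynomial.restrictTotalDegree ι (ZMod 3) j) :=
    Module.finite_of_finite (ZMod 3)
  have h : ((MvPolynomial.restrictTotalDegree ι (ZMod 3) j : Set (MvPolynomial ι (ZMod 3)))).Finite :=
    Set.toFinite _
  refine h.subset ?_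
  intro P hP
  exact (MvPolynomial.mem_restrictTotalDegree ι j P).2 hP

theorem SZ : SZ_stmt := by
  intro ι _ j
  have : Fact (Nat.Prime 3) := ⟨Nat.prime_three⟩
  classical
  let S : Finset (MvPolynomial ι (ZMod 3)) := (SZ_finite ι j).toFinset.filter (fun P => P ≠ 0)
  let Q : MvPolynomial ι (ZMod 3) := ∏ P ∈ S, P
  have hQ : Q ≠ 0 := by
    refine Finset.prod_ne_zero_iff.2 ?_
    intro P hP
    exact (Finset.mem_filter.1 hP).2
  refine ⟨Q.totalDegree + 1, ?_⟩
  intro i hi
  have hi0 : i ≠ 0 := by omega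
  have hcard : Nat.card (GaloisField 3 i) = 3 ^ i := GaloisField.card 3 i hi0
  have : Fintype (GaloisField 3 i) := Fintype.ofFinite _
  have hinj : Function.Injective (algebraMap (ZMod 3) (GaloisField 3 i)) :=
    (algebraMap (ZMod 3) (GaloisField 3 i)).injective
  have hQ' : MvPolynomial.map (algebraMap (ZMod 3) (GaloisField 3 i)) Q ≠ 0 := by
    intro h
    exact hQ ((map_eq_zero_iff _ (MvPolynomial.map_injective _ hinj)).1 h)
  have hex : ∃ a : ι → GaloisField 3 i, MvPolynomial.aeval a Q ≠ 0 := by
    by_contra hcon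
    push Not at hcon
    apply hQ'
    refine MvPolynomial.eq_zero_of_eval_zero_at_prod_finset _ (fun _ => Finset.univ) ?_ ?_
    · intro x
      have h1 : (MvPolynomial.map (algebraMap (ZMod 3) (GaloisField 3 i)) Q).degreeOf x ≤
          Q.totalDegree := by
        refine (MvPolynomial.degreeOf_le_totalDegree _ _).trans ?_
        exact Finset.sup_mono (MvPolynomial.support_map_subset _ _)
      have h2 : (Finset.univ : Finset (GaloisField 3 i)).card = 3 ^ i := by
        rw [Finset.card_univ, ← Nat.card_eq_fintype_card, hcard]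
      have h3 : i < 3 ^ i := Nat.lt_pow_self (by norm_num)
      calc _ ≤ Q.totalDegree := h1
        _ < i := by omega
        _ < 3 ^ i := h3
        _ = _ := h2.symm
    · intro x _
      have := hcon x
      rw [MvPolynomial.eval_map]
      simpa [MvPolynomial.aeval_def] using this
  obtain ⟨a, ha⟩ := hex
  refine ⟨a, ?_⟩
  intro P hP hdeg hz
  apply ha
  have hmem : P ∈ S := Finset.mem_filter.2 ⟨(Set.Finite.mem_toFinset _).2 hdeg, hP⟩
  show MvPolynomial.aeval a (∏ P ∈ S, P) = 0
  rw [map_prod]
  exact Finset.prod_eq_zero hmem hz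

end Pool.Agent.helper23.TH
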