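import Pool.Agent.helper23.TH.Spec

set_option autoImplicit false

open scoped BigOperators

namespace Pool.Agent.helper23.TH

theorem WC_cons {V : Type} (A : V → V → Prop) (j : ℕ) (x : V) (Q : Fin (j + 1) → V) :
    Wk A (j + 1) (Fin.cons x Q : Fin (j + 2) → V) ↔ A x (Q 0) ∧ Wk A j Q := by
  unfold Wk
  rw [Fin.forall_fin_succ]
  refine and_congr ?_ ?_
  · simp
  · refine forall_congr' ?_
    intro i
    have h1 : (i.succ.castSucc : Fin (j + 2)) = (i.castSucc).succ := rfl
    rw [h1, Fin.cons_succ, Fin.cons_succ]

open Classical in
theorem WC : WC_stmt := by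
  intro V _ A j
  induction j with
  | zero =>
    intro a b
    have hlast : (Fin.last 0 : Fin 1) = 0 := rfl
    rw [pow_zero]
    by_cases hab : a = b
    · subst hab
      rw [Matrix.one_apply_eq]
      have : (Finset.univ : Finset (Fin (0 + 1) → V)).filter
          (fun P => Wk A 0 P ∧ P 0 = a ∧ P (Fin.last 0) = a) = {fun _ => a} := by
        ext P
        simp only [Finset.mem_filter, Finset.mem_univ, true_and, Finset.mem_singleton]
        constructor
        · rintro ⟨_, h, _⟩
          funext i
          have hi : i = 0 := Fin.fin_one_eq_zero i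
          rw [hi, h]
        · rintro rfl
          exact ⟨fun i => i.elim0, rfl, rfl⟩
      rw [this]
      simp
    · rw [Matrix.one_apply_ne hab]
      have : (Finset.univ : Finset (Fin (0 + 1) → V)).filter
          (fun P => Wk A 0 P ∧ P 0 = a ∧ P (Fin.last 0) = b) = ∅ := by
        ext P
        simp only [Finset.mem_filter, Finset.mem_univ, true_and, Finset.notMem_empty, iff_false]
        rintro ⟨_, h, h'⟩
        rw [hlast] at h'
        exact hab (h.symm.trans h')
      rw [this]
      simp
  | succ j ih =>
    intro a b
    rw [pow_succ', Matrix.mul_apply]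
    have key : ((Finset.univ : Finset (Fin (j + 1 + 1) → V)).filter
        (fun P => Wk A (j + 1) P ∧ P 0 = a ∧ P (Fin.last (j + 1)) = b)).card =
        ∑ c : V, (if A a c then ((Finset.univ : Finset (Fin (j + 1) → V)).filter
          (fun P => Wk A j P ∧ P 0 = c ∧ P (Fin.last j) = b)).card else 0) := by
      have h1 : ((Finset.univ : Finset (Fin (j + 1 + 1) → V)).filter
          (fun P => Wk A (j + 1) P ∧ P 0 = a ∧ P (Fin.last (j + 1)) = b)).card =
          ((Finset.univ : Finset (Fin (j + 1) → V)).filter
            (fun Q => A a (Q 0) ∧ Wk A j Q ∧ Q (Fin.last j) = b)).card := by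
        symm
        refine Finset.card_bij (fun Q _ => (Fin.cons a Q : Fin (j + 2) → V)) ?_ ?_ ?_
        · intro Q hQ
          simp only [Finset.mem_filter, Finset.mem_univ, true_and] at hQ ⊢
          refine ⟨(WC_cons A j a Q).2 ⟨hQ.1, hQ.2.1⟩, rfl, ?_⟩
          have : (Fin.last (j + 1) : Fin (j + 2)) = (Fin.last j).succ := rfl
          rw [this, Fin.cons_succ]
          exact hQ.2.2
        · intro Q _ Q' _ h
          exact Fin.cons_right_injective (α := fun _ => V) a h
        · intro P hP
          simp only [Finset.mem_filter, Finset.mem_univ, true_and] at hP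
          refine ⟨Fin.tail P, ?_, ?_⟩
          · simp only [Finset.mem_filter, Finset.mem_univ, true_and]
            have hP' : P = (Fin.cons a (Fin.tail P) : Fin (j + 2) → V) := by
              rw [← hP.2.1]
              exact (Fin.cons_self_tail P).symm
            have h2 := hP.1
            rw [hP', WC_cons] at h2
            refine ⟨h2.1, h2.2, ?_⟩
            exact hP.2.2
          · rw [← hP.2.1]
            exact Fin.cons_self_tail P
      rw [h1]
      rw [Finset.card_eq_sum_card_fiberwise (f := fun Q => Q 0) (t := Finset.univ)
        (fun _ _ => Finset.mem_univ _)]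
      refine Finset.sum_congr rfl ?_
      intro c _
      split_ifs with hA
      · congr 1
        ext Q
        simp only [Finset.mem_filter, Finset.mem_univ, true_and]
        constructor
        · rintro ⟨⟨_, h2, h3⟩, h4⟩
          exact ⟨h2, h4, h3⟩
        · rintro ⟨h2, h4, h3⟩
          exact ⟨⟨by rw [h4]; exact hA, h2, h3⟩, h4⟩
      · rw [Finset.card_eq_zero]
        ext Q
        simp only [Finset.mem_filter, Finset.mem_univ, true_and, Finset.notMem_empty, iff_false]
        rintro ⟨⟨h1, _, _⟩, h4⟩
        rw [h4] at h1
        exact hA h1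
    rw [key]
    push_cast
    refine Finset.sum_congr rfl ?_
    intro c _
    rw [← ih c b]
    unfold am
    rw [Matrix.of_apply]
    split_ifs with hA
    · simp
    · simp

end Pool.Agent.helper23.TH
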